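import Pool.Agent.Q144.SU.Clu

/-!
Project GT (helper41), job G1: the cluster lemma in a commutative ring.
-/

set_option autoImplicit false

namespace Pool.Agent.Q95.GT

open Finset Polynomial Pool.Agent.Q41.SU Pool.Agent.Q144.SU

universe u

/-- the value of the classes at one level, both coordinates, different digits -/
theorem level3 {σ : Type} {O : Type u} [CommRing O] (hE : S_exp.{u}) {M : ℕ} (e e' : Fin M → σ)
    (hne : ∀ j, e j ≠ e' j)
    {a b : ℕ} {A : Type u} (c₀ : ℕ → II a b → A) (c c' : ℕ → II a b → O)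
    (hc : ∀ j l l', c₀ j l = c₀ j l' → c j l = c j l')
    (hc' : ∀ j l l', c₀ j l = c₀ j l' → c' j l = c' j l') (η η' : II a b → O) (j₀ : Fin M)
    (w₁ w₂ : ℕ) :
    ∀ d ∈ (bd a b (rw' e c η) (rw' e' c' η')).support,
      ∑ l, (phi w₁ w₂ a b (dcl c₀ ((j₀ : ℕ) + 1) l) : ℝ) /
      (dcl c₀ ((j₀ : ℕ) + 1) l : ℝ) ≤ w₁ * d (e j₀) + w₂ * d (e' j₀) := by
  classical
  obtain ⟨C, _, cl, out, hout, hcard⟩ := classes c₀ ((j₀ : ℕ) + 1)
  obtain ⟨β, hβ⟩ := rw_split e c η j₀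
  obtain ⟨β', hβ'⟩ := rw_split e' c' η' j₀
  have hrow : rw' e c η = fun l => (fun q => ∑ i ∈ range ((j₀ : ℕ) + 1),
      MvPolynomial.C (c i (out q)) * pr O e i) (cl l) + MvPolynomial.X (e j₀) * β l := by
    funext l
    rw [hβ l]
    congr 1
    refine Finset.sum_congr rfl fun i hi => ?_
    rw [hc i _ _ (hout l i (Finset.mem_range.1 hi))]
  have hrow' : rw' e' c' η' = fun l => (fun q => ∑ i ∈ range ((j₀ : ℕ) + 1),
      MvPolynomial.C (c' i (out q)) * pr O e' i) (cl l) + MvPolynomial.X (e' j₀) * β' l := by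
    funext l
    rw [hβ' l]
    congr 1
    refine Finset.sum_congr rfl fun i hi => ?_
    rw [hc' i _ _ (hout l i (Finset.mem_range.1 hi))]
  intro d hd
  have h1 := hE (MvPolynomial σ O) a b C cl (fun q => ∑ i ∈ range ((j₀ : ℕ) + 1),
      MvPolynomial.C (c i (out q)) * pr O e i) (fun q => ∑ i ∈ range ((j₀ : ℕ) + 1),
      MvPolynomial.C (c' i (out q)) * pr O e' i) β β' (MvPolynomial.X (e j₀))
      (MvPolynomial.X (e' j₀))
  rw [← hrow, ← hrow'] at h1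
  have h2 : {z : MvPolynomial σ O | ∃ m n : ℕ, z = MvPolynomial.X (e j₀) ^ m *
      MvPolynomial.X (e' j₀) ^ n ∧ ∀ w₁ w₂ : ℕ,
        ∑ l, (phi w₁ w₂ a b (univ.filter fun l' => cl l' = cl l).card : ℝ) /
          ((univ.filter fun l' => cl l' = cl l).card : ℝ) ≤ (w₁ * m + w₂ * n : ℕ)} =
      (fun s => MvPolynomial.monomial s (1 : O)) '' {s : σ →₀ ℕ | ∃ m n : ℕ,
          s = Finsupp.single (e j₀) m + Finsupp.single (e' j₀) n ∧ ∀ w₁ w₂ : ℕ,
        ∑ l, (phi w₁ w₂ a b (univ.filter fun l' => cl l' = cl l).card : ℝ) /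
          ((univ.filter fun l' => cl l' = cl l).card : ℝ) ≤ (w₁ * m + w₂ * n : ℕ)} := by
    ext z
    constructor
    · rintro ⟨m, n, hz, hm⟩
      exact ⟨_, ⟨m, n, rfl, hm⟩, by rw [hz, MvPolynomial.X_pow_eq_monomial,
        MvPolynomial.X_pow_eq_monomial, MvPolynomial.monomial_mul, one_mul]⟩
    · rintro ⟨s, ⟨m, n, rfl, hm⟩, rfl⟩
      exact ⟨m, n, by simp only [MvPolynomial.X_pow_eq_monomial, MvPolynomial.monomial_mul,
        one_mul], hm⟩
  rw [h2, MvPolynomial.mem_ideal_span_monomial_image] at h1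
  obtain ⟨s, ⟨m, n, rfl, hm⟩, hs⟩ := h1 d hd
  have h3 := hs (e j₀)
  have h4 := hs (e' j₀)
  rw [Finsupp.add_apply, Finsupp.single_eq_same, Finsupp.single_eq_of_ne (hne j₀)] at h3
  rw [Finsupp.add_apply, Finsupp.single_eq_same, Finsupp.single_eq_of_ne (hne j₀).symm] at h4
  have h5 : ∑ l, (phi w₁ w₂ a b (dcl c₀ ((j₀ : ℕ) + 1) l) : ℝ) /
        (dcl c₀ ((j₀ : ℕ) + 1) l : ℝ) ≤ (w₁ * m + w₂ * n : ℕ) := by
    refine le_trans (le_of_eq ?_) (hm w₁ w₂)
    refine Finset.sum_congr rfl fun l _ => ?_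
    rw [hcard l]
  refine h5.trans ?_
  push_cast
  have h6 : (m : ℝ) ≤ d (e j₀) := by exact_mod_cast (by omega : m ≤ d (e j₀))
  have h7 : (n : ℝ) ≤ d (e' j₀) := by exact_mod_cast (by omega : n ≤ d (e' j₀))
  have h8 : (0 : ℝ) ≤ w₁ := Nat.cast_nonneg _
  have h9 : (0 : ℝ) ≤ w₂ := Nat.cast_nonneg _
  nlinarith [mul_le_mul_of_nonneg_left h6 h8, mul_le_mul_of_nonneg_left h7 h9]

/-- (G1) without the statement file -/
theorem bgc_aux (hE : S_exp.{u}) (A : Type u) [CommRing A] (a b M : ℕ) (ϖ ϖ' : A)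
    (c c' : ℕ → II a b → A) (η η' : II a b → A)
    (hcc : ∀ i l m, c i l = c i m → c' i l = c' i m) :
    bd a b (fun l => ∑ i ∈ range M, c i l * ϖ ^ i + ϖ ^ M * η l)
      (fun l => ∑ i ∈ range M, c' i l * ϖ' ^ i + ϖ' ^ M * η' l) ∈
      Ideal.span {z : A | ∃ m n : ℕ, z = ϖ ^ m * ϖ' ^ n ∧ ∀ w₁ w₂ : ℕ,
        ∑ i ∈ Icc 1 M, ∑ l, (phi w₁ w₂ a b (dcl c i l) : ℝ) / (dcl c i l : ℝ) ≤
          (w₁ * m + w₂ * n : ℕ)} := by
  set O : Subring A := ⊤ with hO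
  set e : Fin M → Fin M ⊕ Fin M := Sum.inl with he
  set e' : Fin M → Fin M ⊕ Fin M := Sum.inr with he'
  set f : Fin M ⊕ Fin M → A := Sum.elim (fun _ => ϖ) (fun _ => ϖ') with hf
  set cO : ℕ → II a b → O := fun i l => ⟨c i l, Subring.mem_top _⟩ with hcO
  set cO' : ℕ → II a b → O := fun i l => ⟨c' i l, Subring.mem_top _⟩ with hcO'
  set ηO : II a b → O := fun l => ⟨η l, Subring.mem_top _⟩ with hηO
  set ηO' : II a b → O := fun l => ⟨η' l, Subring.mem_top _⟩ with hηO'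
  have hev : bd a b (fun l => ∑ i ∈ range M, c i l * ϖ ^ i + ϖ ^ M * η l)
      (fun l => ∑ i ∈ range M, c' i l * ϖ' ^ i + ϖ' ^ M * η' l) =
      MvPolynomial.eval₂ O.subtype f (bd a b (rw' e cO ηO) (rw' e' cO' ηO')) := by
    rw [eval_bd]
    congr 1
    · funext l
      rw [eval_rw O e f ϖ (fun _ => rfl)]
    · funext l
      rw [eval_rw O e' f ϖ' (fun _ => rfl)]
  rw [hev, MvPolynomial.eval₂_eq']
  refine Ideal.sum_mem _ fun d hd => ?_
  refine Ideal.mul_mem_left _ _ (Ideal.subset_span ?_)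
  refine ⟨∑ j : Fin M, d (Sum.inl j), ∑ j : Fin M, d (Sum.inr j), ?_, ?_⟩
  · rw [Fintype.prod_sum_type]
    simp only [hf, Sum.elim_inl, Sum.elim_inr]
    rw [Finset.prod_pow_eq_pow_sum, Finset.prod_pow_eq_pow_sum]
  · intro w₁ w₂
    have hV := fun j : Fin M => level3 hE e e' (fun j => by simp [he, he']) c cO cO'
      (fun j l l' h => Subtype.ext h) (fun j l l' h => Subtype.ext (hcc j l l' h))
      ηO ηO' j w₁ w₂ d hd
    rw [sum_Icc_fin M (fun i => ∑ l, (phi w₁ w₂ a b (dcl c i l) : ℝ) / (dcl c i l : ℝ))]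
    refine le_trans (Finset.sum_le_sum fun j _ => hV j) (le_of_eq ?_)
    push_cast
    rw [Finset.sum_add_distrib, Finset.mul_sum, Finset.mul_sum]

end Pool.Agent.Q95.GT
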