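import Pool.Agent.Q41.GT.Stm1
import Pool.Agent.Q95.GT.Bgc
import Pool.Agent.Q144.SU.Exp

/-!
Project GT (helper41), job G1.
-/

set_option autoImplicit false

namespace Pool.Agent.Q95.GT

open Finset Polynomial Pool.Agent.Q41.SU Pool.Agent.Q41.GT

universe u

theorem bgc (hE : S_exp.{u}) : S_bgc.{u} :=
  fun A _ a b M ϖ ϖ' c c' η η' h => bgc_aux hE A a b M ϖ ϖ' c c' η η' h

theorem t_bgc : S_bgc.{u} := bgc Pool.Agent.Q144.SU.exp

end Pool.Agent.Q95.GT
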