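import Pool.Agent.Helper386.D5V.Helper386_FF_Place

/-!
# Extending a place to an algebraically closed field (adapted from W277/UG/A1.lean)
-/

set_option autoImplicit false

namespace Pool.Agent.Q95.GT

open Finset FF

variable {k K : Type} [Field k] [Field K] [Algebra k K]

/-- The absolute value of a place. -/
noncomputable def absv (v : Place k K) : AbsoluteValue K ℝ := by
  classical
  exact
  { toFun := fun x => if x = 0 then 0 else Real.exp (-(v.ord x : ℝ))
    map_mul' := by
      intro x y
      by_cases hx : x = 0
      · simp [hx]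
      by_cases hy : y = 0
      · simp [hy]
      simp only [mul_eq_zero, hx, hy, or_self, if_false]
      rw [v.ord_mul hx hy, ← Real.exp_add]
      congr 1
      push_cast
      ring
    nonneg' := by
      intro x
      show 0 ≤ (if x = 0 then (0:ℝ) else Real.exp (-(v.ord x : ℝ)))
      split_ifs
      · exact le_refl 0
      · exact (Real.exp_pos _).le
    eq_zero' := by
      intro x
      show (if x = 0 then (0:ℝ) else Real.exp (-(v.ord x : ℝ))) = 0 ↔ x = 0
      split_ifs with h
      · simp [h]
      · simp [h, (Real.exp_pos _).ne']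
    add_le' := by
      intro x y
      show (if x + y = 0 then (0:ℝ) else Real.exp (-(v.ord (x + y) : ℝ))) ≤
        (if x = 0 then (0:ℝ) else Real.exp (-(v.ord x : ℝ))) +
        (if y = 0 then (0:ℝ) else Real.exp (-(v.ord y : ℝ)))
      by_cases hx : x = 0
      · simp [hx]
      by_cases hy : y = 0
      · simp [hy]
      by_cases hxy : x + y = 0
      · simp only [hxy, if_true, hx, hy, if_false]
        positivity
      simp only [hx, hy, hxy, if_false]
      have h := v.ord_add hx hy hxy
      rcases min_choice (v.ord x) (v.ord y) with h' | h'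
      · rw [h'] at h
        have : Real.exp (-(v.ord (x + y) : ℝ)) ≤ Real.exp (-(v.ord x : ℝ)) := by
          apply Real.exp_le_exp.mpr
          have : (v.ord x : ℝ) ≤ v.ord (x + y) := by exact_mod_cast h
          linarith
        have h2 := Real.exp_pos (-(v.ord y : ℝ))
        linarith
      · rw [h'] at h
        have : Real.exp (-(v.ord (x + y) : ℝ)) ≤ Real.exp (-(v.ord y : ℝ)) := by
          apply Real.exp_le_exp.mpr
          have : (v.ord y : ℝ) ≤ v.ord (x + y) := by exact_mod_cast h
          linarith
        have h2 := Real.exp_pos (-(v.ord x : ℝ))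
        linarith }

lemma absv_apply (v : Place k K) (x : K) (hx : x ≠ 0) :
    absv v x = Real.exp (-(v.ord x : ℝ)) := by
  classical
  show (if x = 0 then 0 else Real.exp (-(v.ord x : ℝ))) = _
  rw [if_neg hx]

lemma absv_alg (v : Place k K) (c : k) (hc : c ≠ 0) :
    absv v (algebraMap k K c) = 1 := by
  have h : algebraMap k K c ≠ 0 := (map_ne_zero _).mpr hc
  rw [absv_apply v _ h, v.ord_const hc]
  simp

/-- A place extends to an algebraically closed ultrametric field. -/
theorem exists_ext [CharZero k] (v : Place k K) :
    ∃ (Ω : Type) (_ : NormedField Ω) (_ : IsAlgClosed Ω) (_ : IsUltrametricDist Ω)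
      (ι : K →+* Ω), ∀ x : K, x ≠ 0 → ‖ι x‖ = Real.exp (-(v.ord x : ℝ)) := by
  obtain ⟨π, hπ0, hπ⟩ := v.surj
  let a := absv v
  have hnat : ∀ n : ℕ, a (n : K) ≤ 1 := by
    intro n
    by_cases hn : n = 0
    · subst hn
      simp
    · have h1 : ((n : ℕ) : K) = algebraMap k K (n : k) := by simp
      rw [h1]
      exact (absv_alg v (n : k) (Nat.cast_ne_zero.mpr hn)).le
  haveI : CharZero K := charZero_of_injective_algebraMap (algebraMap k K).injective
  haveI hu : IsUltrametricDist a.Completion := by
    rw [isUltrametricDist_iff_forall_norm_natCast_le_one]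
    intro n
    have h1 : ((n : ℕ) : a.Completion) = ((n : WithAbs a) : a.Completion) := by
      have := map_natCast (UniformSpace.Completion.coeRingHom (α := WithAbs a)) n
      exact this.symm
    rw [h1, UniformSpace.Completion.norm_coe]
    exact hnat n
  have hnt : ∃ x : a.Completion, 1 < ‖x‖ := by
    have hcoe : ∀ x : K, ‖((WithAbs.toAbs a x : WithAbs a) : a.Completion)‖ = a x := by
      intro x
      rw [UniformSpace.Completion.norm_coe]
      rfl
    refine ⟨((WithAbs.toAbs a π⁻¹ : WithAbs a) : a.Completion), ?_⟩
    rw [hcoe]
    show 1 < absv v π⁻¹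
    rw [map_inv₀, absv_apply v π hπ0, hπ]
    rw [one_lt_inv₀ (Real.exp_pos _)]
    apply Real.exp_lt_one_iff.mpr
    norm_num
  letI : NontriviallyNormedField a.Completion :=
    { (inferInstance : NormedField a.Completion) with non_trivial := hnt }
  let Ω := AlgebraicClosure a.Completion
  letI hΩ : NormedField Ω := spectralNorm.normedField a.Completion Ω
  refine ⟨Ω, hΩ, inferInstance, ?_, ?_, ?_⟩
  · apply IsUltrametricDist.isUltrametricDist_of_isNonarchimedean_norm
    exact isNonarchimedean_spectralNorm (K := a.Completion) (L := Ω)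
  · exact ((algebraMap a.Completion Ω).comp
      (UniformSpace.Completion.coeRingHom (α := WithAbs a))).comp
        (WithAbs.equiv a).symm.toRingHom
  · intro x hx
    have h1 := spectralNorm_extends (K := a.Completion) (L := Ω)
      ((WithAbs.toAbs a x : WithAbs a) : a.Completion)
    have h2 : ‖((WithAbs.toAbs a x : WithAbs a) : a.Completion)‖ = a x := by
      rw [UniformSpace.Completion.norm_coe]
      rfl
    rw [h2] at h1
    rw [← absv_apply v x hx]
    exact h1

end Pool.Agent.Q95.GT
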